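import Mathlib

open Set Filter Topology Metric InnerProductSpace

namespace Pool.Agent.Results.MP_784777_an.Counter

/-- `v` is subharmonic on the open set `U`: upper semicontinuous, `< +∞`, and dominated inside every
closed disc of `U` by each harmonic function that dominates it on the boundary circle. -/
def Subh (U : Set ℂ) (v : ℂ → EReal) : Prop :=
  UpperSemicontinuousOn v U ∧ (∀ z ∈ U, v z < ⊤) ∧
    ∀ (c : ℂ) (R : ℝ), 0 < R → closedBall c R ⊆ U → ∀ h : ℂ → ℝ, ContinuousOn h (closedBall c R) →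
      HarmonicOnNhd h (ball c R) → (∀ z ∈ sphere c R, v z ≤ h z) → ∀ z ∈ ball c R, v z ≤ h z

/-- The class `U[ρ]`. -/
def InU (ρ : ℝ) (v : ℂ → EReal) : Prop :=
  Subh univ v ∧ v 0 = 0 ∧ ∃ σ : ℝ, 0 < σ ∧ ∀ z, v z ≤ (σ * ‖z‖ ^ ρ : ℝ)

/-- Minimality of `v`. -/
def Minimal (ρ : ℝ) (v : ℂ → EReal) : Prop :=
  ∀ ε : ℝ, 0 < ε → ¬ ∃ w, InU ρ w ∧ ∀ z, w z ≤ v z - (ε * ‖z‖ ^ ρ : ℝ)

/-- `H(v)`: the largest open set on which `v` is harmonic. -/
def harmSet (v : ℂ → EReal) : Set ℂ :=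
  {z | ∃ h : ℂ → ℝ, HarmonicAt h z ∧ ∀ᶠ y in 𝓝 z, v y = h y}

/-- `q` is a regular boundary point of `D`: there is a local barrier at `q`. -/
def Regular (D : Set ℂ) (q : ℂ) : Prop :=
  ∃ N : Set ℂ, IsOpen N ∧ q ∈ N ∧ ∃ b : ℂ → EReal, Subh (D ∩ N) b ∧ (∀ p ∈ D ∩ N, b p < 0) ∧
    Tendsto b (𝓝[D] q) (𝓝 0)

/-- `r` solves problem (1) on `D`; points `(x, y)` of the cylinder are written `x + iy`, and
`L_λ r = 0` is read as harmonicity of `e^{λx} r`. -/
def Solves (lam : ℝ) (D : Set ℂ) (r : ℂ → ℝ) : Prop :=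
  Function.Periodic r (2 * Real.pi * Complex.I) ∧ (∃ C, ∀ p ∈ D, |r p| ≤ C) ∧
    HarmonicOnNhd (fun p => Real.exp (lam * p.re) * r p) D ∧
    ∀ q ∈ frontier D, Regular D q → Tendsto r (𝓝[D] q) (𝓝 0)

/-- `λ(D)`, equal to `+∞` when (1) never has a nontrivial solution. -/
noncomputable def lamOf (D : Set ℂ) : EReal :=
  ⨅ (lam : ℝ) (_ : 0 < lam ∧ ∃ r, Solves lam D r ∧ ∃ p ∈ D, r p ≠ 0), (lam : EReal)

lemma maxp {c : ℂ} {R : ℝ} (hR : 0 < R) {F : ℂ → ℂ} {φ : ℂ → ℝ} (hF : DifferentiableOn ℂ F (ball c R))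
    (hφ : ContinuousOn φ (closedBall c R)) (he : ∀ z ∈ ball c R, φ z = ‖F z‖)
    (hb : ∀ z ∈ sphere c R, φ z ≤ 1) : ∀ z ∈ ball c R, φ z ≤ 1 := by
  obtain ⟨p, hp, hmax⟩ := (isCompact_closedBall c R).exists_isMaxOn ⟨c, mem_closedBall_self hR.le⟩ hφ
  intro z hz
  refine (hmax (ball_subset_closedBall hz)).trans ?_
  by_cases hps : p ∈ sphere c R
  · exact hb p hps
  have hpb : p ∈ ball c R := lt_of_le_of_ne hp hps
  have h1 := Complex.norm_eqOn_of_isPreconnected_of_isMaxOn (convex_ball c R).isPreconnected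
    isOpen_ball hF hpb (fun y hy => by
      have := hmax (ball_subset_closedBall hy)
      simp only [mem_setOf_eq, he y hy, he p hpb] at this
      exact this)
  have h2 : EqOn φ (fun _ => φ p) (ball c R) := fun y hy => by
    rw [he y hy, he p hpb]; exact h1 hy
  have h3 : EqOn φ (fun _ => φ p) (closedBall c R) :=
    h2.of_subset_closure hφ continuousOn_const ball_subset_closedBall (by rw [closure_ball c hR.ne'])
  obtain ⟨s, hs⟩ : (sphere c R).Nonempty := NormedSpace.sphere_nonempty.2 hR.le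
  rw [← show φ s = φ p from h3 (sphere_subset_closedBall hs)]
  exact hb s hs

lemma minp {c : ℂ} {R : ℝ} (hR : 0 < R) {h : ℂ → ℝ} (hc : ContinuousOn h (closedBall c R))
    (hh : HarmonicOnNhd h (ball c R)) (hb : ∀ z ∈ sphere c R, 0 ≤ h z) :
    ∀ z ∈ ball c R, 0 ≤ h z := by
  obtain ⟨g, hg, hre⟩ := hh.exists_analyticOnNhd_ball_re_eq
  intro z hz
  have := maxp hR (F := fun z => Complex.exp (-g z)) (φ := fun z => Real.exp (-h z))
    hg.differentiableOn.neg.cexp hc.neg.rexp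
    (fun y hy => by rw [Complex.norm_exp, Complex.neg_re, ← hre hy])
    (fun y hy => Real.exp_le_one_iff.2 (by linarith [hb y hy])) z hz
  linarith [Real.exp_le_one_iff.1 this]

lemma locmax {u : ℂ → ℝ} {z : ℂ} (hu : HarmonicAt u z) (hm : IsLocalMax u z) :
    ∀ᶠ y in 𝓝 z, u y = u z := by
  obtain ⟨R, hR, hb⟩ := Metric.eventually_nhds_iff_ball.1 hu.eventually
  obtain ⟨g, hg, hre⟩ := HarmonicOnNhd.exists_analyticOnNhd_ball_re_eq (f := u) hb
  have hn : ∀ y ∈ ball z R, ‖Complex.exp (g y)‖ = Real.exp (u y) := fun y hy => by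
    rw [Complex.norm_exp, ← hre hy]
  have h1 := Complex.norm_eventually_eq_of_isLocalMax (f := fun y => Complex.exp (g y)) (c := z)
    (by filter_upwards [ball_mem_nhds z hR] with y hy using (hg y hy).differentiableAt.cexp)
    (by
      filter_upwards [ball_mem_nhds z hR, hm] with y hy hy'
      simp only [Function.comp, hn y hy, hn z (mem_ball_self hR)]
      exact Real.exp_le_exp.2 hy')
  filter_upwards [ball_mem_nhds z hR, h1] with y hy hy'
  rw [hn y hy, hn z (mem_ball_self hR)] at hy'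
  exact Real.exp_injective hy'

lemma tangent {ρ s t : ℝ} (hs : 0 < s) (ht : 0 < t) :
    s ^ ρ * (1 + ρ * Real.log t - ρ * Real.log s) ≤ t ^ ρ := by
  rw [Real.rpow_def_of_pos hs, Real.rpow_def_of_pos ht]
  have := Real.add_one_le_exp (Real.log t * ρ - Real.log s * ρ)
  rw [Real.exp_sub, le_div_iff₀ (Real.exp_pos _)] at this
  nlinarith

lemma tangent_lt {ρ s t : ℝ} (hρ : 0 < ρ) (hs : 0 < s) (ht : s < t) :
    s ^ ρ * (1 + ρ * Real.log t - ρ * Real.log s) < t ^ ρ := by
  rw [Real.rpow_def_of_pos hs, Real.rpow_def_of_pos (hs.trans ht)]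
  have h0 : Real.log t * ρ - Real.log s * ρ ≠ 0 := by
    have := Real.log_lt_log hs ht
    nlinarith
  have := Real.add_one_lt_exp h0
  rw [Real.exp_sub, lt_div_iff₀ (Real.exp_pos _)] at this
  nlinarith

noncomputable def vr (ρ : ℝ) (z : ℂ) : ℝ := max (‖z‖ ^ ρ - 1) 0

lemma vr_cont {ρ : ℝ} (hρ : 0 < ρ) : Continuous (vr ρ) :=
  ((continuous_norm.rpow_const fun _ => Or.inr hρ.le).sub continuous_const).max continuous_const

lemma vr_zero {ρ : ℝ} (hρ : 0 < ρ) {z : ℂ} (hz : ‖z‖ ≤ 1) : vr ρ z = 0 :=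
  max_eq_right (by linarith [Real.rpow_le_one (norm_nonneg z) hz hρ.le])

lemma subh_of_real {U : Set ℂ} {v : ℂ → ℝ} (hv : Continuous v)
    (H : ∀ (c : ℂ) (R : ℝ), 0 < R → ∀ h : ℂ → ℝ, ContinuousOn h (closedBall c R) →
      HarmonicOnNhd h (ball c R) → (∀ z ∈ sphere c R, v z ≤ h z) → ∀ z ∈ ball c R, v z ≤ h z) :
    Subh U fun z => (v z : EReal) :=
  ⟨(continuous_coe_real_ereal.comp hv).continuousOn.upperSemicontinuousOn,
    fun _ _ => EReal.coe_lt_top _, fun c R hR _ h hc hh hb z hz =>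
      EReal.coe_le_coe_iff.2 (H c R hR h hc hh (fun y hy => EReal.coe_le_coe_iff.1 (hb y hy)) z hz)⟩

lemma vr_subh {ρ : ℝ} (hρ : 0 < ρ) : Subh univ fun z => (vr ρ z : EReal) := by
  refine subh_of_real (vr_cont hρ) fun c R hR h hc hh hb z hz => ?_
  have h0 := minp hR hc hh (fun y hy => (le_max_right _ _).trans (hb y hy)) z hz
  refine max_le ?_ h0
  by_cases hz0 : z = 0
  · subst hz0
    rw [norm_zero, Real.zero_rpow hρ.ne']
    linarith
  have hs : 0 < ‖z‖ := norm_pos_iff.2 hz0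
  set s := ‖z‖ with hsd
  have ha : 0 < s ^ ρ * ρ := by positivity
  obtain ⟨g, hg, hre⟩ := hh.exists_analyticOnNhd_ball_re_eq
  let b : ℝ := s ^ ρ * (1 - ρ * Real.log s) - 1
  have key : ∀ y : ℂ, y ≠ 0 → (‖y‖ * Real.exp ((b - h y) / (s ^ ρ * ρ)) ≤ 1 ↔
      s ^ ρ * (1 + ρ * Real.log ‖y‖ - ρ * Real.log s) - 1 ≤ h y) := fun y hy => by
    rw [← Real.exp_log (norm_pos_iff.2 hy), ← Real.exp_add, Real.exp_le_one_iff, Real.log_exp,
      ← le_neg_iff_add_nonpos_left, div_le_iff₀ ha]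
    constructor <;> intro H <;> simp only [b] at * <;> linarith
  have := maxp hR (F := fun y => y * Complex.exp (((b : ℂ) - g y) / ((s ^ ρ * ρ : ℝ) : ℂ)))
    (φ := fun y => ‖y‖ * Real.exp ((b - h y) / (s ^ ρ * ρ)))
    (differentiableOn_id.mul (((differentiableOn_const _).sub hg.differentiableOn).div_const _).cexp)
    (continuous_norm.continuousOn.mul ((continuousOn_const.sub hc).div_const _).rexp)
    (fun y hy => by
      rw [norm_mul, Complex.norm_exp, Complex.div_ofReal_re, Complex.sub_re, Complex.ofReal_re,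
        ← hre hy])
    (fun y hy => by
      by_cases hy0 : y = 0
      · simp [hy0]
      · refine (key y hy0).2 ?_
        have h1 := tangent (ρ := ρ) hs (norm_pos_iff.2 hy0)
        have h2 := (le_max_left _ _).trans (hb y hy)
        linarith) z hz
  have h3 := (key z hz0).1 this
  rw [← hsd] at h3
  linarith

lemma harmSet_vr {ρ : ℝ} (hρ : 0 < ρ) : harmSet (fun z => (vr ρ z : EReal)) = ball 0 1 := by
  ext z
  constructor
  · rintro ⟨h, hh, he⟩
    by_contra hz
    have hz1 : 1 ≤ ‖z‖ := by simpa using hz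
    have hz0 : z ≠ 0 := norm_pos_iff.1 (by linarith)
    set s := ‖z‖ with hsd
    have hs : 0 < s := by linarith
    let k : ℂ → ℝ := fun y => s ^ ρ * (1 + ρ * Real.log ‖y‖ - ρ * Real.log s) - 1
    have hk : HarmonicAt k z := by
      have h1 : HarmonicAt (fun y : ℂ => Real.log ‖y‖) z :=
        (analyticAt_id (𝕜 := ℂ) (z := z)).harmonicAt_log_norm hz0
      have h2 := (h1.const_smul (c := s ^ ρ * ρ)).add
        (harmonicAt_const (x := z) (s ^ ρ * (1 - ρ * Real.log s) - 1))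
      refine (harmonicAt_congr_nhds (Eventually.of_forall fun y => ?_)).1 h2
      simp only [k, Pi.add_apply, Pi.smul_apply, smul_eq_mul]
      ring
    have he' : ∀ᶠ y in 𝓝 z, vr ρ y = h y := he.mono fun y hy => EReal.coe_eq_coe_iff.1 hy
    have hz2 : k z - h z = 0 := by
      rw [← he'.self_of_nhds, vr, max_eq_left (by linarith [Real.one_le_rpow hz1 hρ.le])]
      simp only [k, ← hsd]
      ring
    have hloc := locmax (hk.sub hh) (by
      filter_upwards [he', eventually_ne_nhds hz0] with y hy hy0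
      have h1 := tangent (ρ := ρ) hs (norm_pos_iff.2 hy0)
      have h2 : ‖y‖ ^ ρ - 1 ≤ vr ρ y := le_max_left _ _
      simp only [Pi.sub_apply, hz2, k]
      linarith)
    have ht : Tendsto (fun t : ℝ => ((1 + t : ℝ) : ℂ) * z) (𝓝[>] 0) (𝓝 z) := by
      have : Continuous fun t : ℝ => ((1 + t : ℝ) : ℂ) * z := by fun_prop
      simpa using (this.tendsto 0).mono_left nhdsWithin_le_nhds
    obtain ⟨t, ⟨h1, h2⟩, h3⟩ := ((ht.eventually (hloc.and he')).and self_mem_nhdsWithin).exists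
    replace h3 : 0 < t := h3
    have h4 : s < ‖((1 + t : ℝ) : ℂ) * z‖ := by
      rw [norm_mul, Complex.norm_real, Real.norm_eq_abs, abs_of_pos (by linarith), ← hsd]
      nlinarith
    have h5 := tangent_lt hρ hs h4
    have h6 : ‖((1 + t : ℝ) : ℂ) * z‖ ^ ρ - 1 ≤ vr ρ (((1 + t : ℝ) : ℂ) * z) := le_max_left _ _
    simp only [Pi.sub_apply, hz2, k] at h1
    linarith
  · intro hz
    refine ⟨fun _ => 0, harmonicAt_const _, ?_⟩
    filter_upwards [isOpen_ball.mem_nhds hz] with y hy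
    rw [vr_zero hρ (mem_ball_zero_iff.1 hy).le]

lemma regular_half (q : ℂ) (hq : q.re = 0) : Regular {p : ℂ | p.re < 0} q := by
  refine ⟨univ, isOpen_univ, mem_univ _, fun p => (p.re : EReal), subh_of_real
    Complex.continuous_re fun c R hR h hc hh hb z hz => ?_, fun p hp => ?_, ?_⟩
  · have := minp hR (h := fun y => h y - y.re) (hc.sub Complex.continuous_re.continuousOn)
      (fun y hy => (hh y hy).sub (analyticAt_id (𝕜 := ℂ) (z := y)).harmonicAt_re)
      (fun y hy => sub_nonneg.2 (hb y hy)) z hz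
    linarith
  · exact EReal.coe_neg'.2 hp.1
  · have := ((continuous_coe_real_ereal.comp Complex.continuous_re).tendsto q).mono_left
      (nhdsWithin_le_nhds (s := {p : ℂ | p.re < 0}))
    simpa [hq, Function.comp_def] using this

lemma nonpos {lam C : ℝ} (hl : 0 < lam) {u : ℂ → ℝ}
    (hper : Function.Periodic u (2 * Real.pi * Complex.I))
    (hb : ∀ p : ℂ, p.re < 0 → u p ≤ C * Real.exp (lam * p.re))
    (hh : HarmonicOnNhd u {p : ℂ | p.re < 0})
    (hz : ∀ q : ℂ, q.re = 0 → Tendsto u (𝓝[{p : ℂ | p.re < 0}] q) (𝓝 0)) :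
    ∀ p : ℂ, p.re < 0 → u p ≤ 0 := by
  intro p1 hp1
  by_contra hpos
  push Not at hpos
  have hD : IsOpen {p : ℂ | p.re < 0} := isOpen_lt Complex.continuous_re continuous_const
  have hdec : ∀ m : ℝ, 0 < m → ∃ A : ℝ, A < 0 ∧ ∀ p : ℂ, p.re ≤ A → u p < m := fun m hm => by
    have h1 : Tendsto (fun x : ℝ => |C| * Real.exp (lam * x)) atBot (𝓝 (|C| * 0)) :=
      (Real.tendsto_exp_atBot.comp (tendsto_id.const_mul_atBot hl)).const_mul _
    obtain ⟨A, hA, hA0⟩ := ((h1.eventually (gt_mem_nhds (by simpa using hm))).and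
      (eventually_lt_atBot 0)).exists
    refine ⟨A, hA0, fun p hp => ((hb p (by linarith)).trans ?_).trans_lt hA⟩
    exact mul_le_mul (le_abs_self _) (Real.exp_le_exp.2 (by nlinarith)) (Real.exp_pos _).le
      (abs_nonneg _)
  obtain ⟨A, hA0, hA⟩ := hdec _ hpos
  let ub : ℂ → ℝ := fun p => if p.re < 0 then u p else 0
  let K : Set ℂ := Icc A 0 ×ℂ Icc 0 (2 * Real.pi)
  have hK : IsCompact K := isCompact_Icc.reProdIm isCompact_Icc
  have hc : ContinuousOn ub K := fun q hq => by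
    by_cases h0 : q.re < 0
    · refine ContinuousAt.continuousWithinAt ?_
      refine (hh q h0).1.continuousAt.congr ?_
      filter_upwards [hD.mem_nhds h0] with y hy
      exact (if_pos hy).symm
    · have h1 : q.re = 0 := le_antisymm hq.1.2 (not_lt.1 h0)
      refine ContinuousAt.continuousWithinAt ?_
      rw [ContinuousAt, show ub q = 0 from if_neg h0, ← nhdsWithin_univ,
        ← union_compl_self {p : ℂ | p.re < 0}, nhdsWithin_union]
      · exact tendsto_sup.2 ⟨(hz q h1).congr' (eventually_nhdsWithin_of_forall fun y hy =>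
          (if_pos hy).symm), tendsto_const_nhds.congr' (eventually_nhdsWithin_of_forall fun y hy =>
          (if_neg hy).symm)⟩
  have hred : ∀ p : ℂ, A ≤ p.re → p.re < 0 → ∃ p' ∈ K, ub p' = u p := fun p h1 h2 => by
    have hpi : 0 < 2 * Real.pi := by positivity
    let n : ℤ := ⌊p.im / (2 * Real.pi)⌋
    have a1 : (n : ℝ) ≤ p.im / (2 * Real.pi) := Int.floor_le _
    have a2 : p.im / (2 * Real.pi) < n + 1 := Int.lt_floor_add_one _
    rw [le_div_iff₀ hpi] at a1
    rw [div_lt_iff₀ hpi] at a2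
    have e1 : (p - n * (2 * Real.pi * Complex.I)).re = p.re := by simp
    have e2 : (p - n * (2 * Real.pi * Complex.I)).im = p.im - n * (2 * Real.pi) := by simp
    refine ⟨p - n * (2 * Real.pi * Complex.I), ⟨?_, ?_⟩, ?_⟩
    · change _ ∈ Icc A 0
      rw [e1]; exact ⟨h1, h2.le⟩
    · change _ ∈ Icc 0 (2 * Real.pi)
      rw [e2]; constructor <;> linarith
    · simp only [ub, e1, if_pos h2]
      exact hper.sub_int_mul_eq n
  have hA1 : A ≤ p1.re := by
    by_contra h
    exact lt_irrefl _ (hA p1 (not_le.1 h).le)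
  obtain ⟨p1', hp1', he1⟩ := hred p1 hA1 hp1
  obtain ⟨p0, hp0, hmax⟩ := hK.exists_isMaxOn ⟨p1', hp1'⟩ hc
  have hM : u p1 ≤ ub p0 := he1 ▸ hmax hp1'
  have hp0D : p0.re < 0 := by
    by_contra h
    rw [show ub p0 = 0 from if_neg h] at hM
    linarith
  have hub : ub p0 = u p0 := if_pos hp0D
  rw [hub] at hM
  have hglob : ∀ p : ℂ, p.re < 0 → u p ≤ u p0 := fun p hp => by
    by_cases h : A ≤ p.re
    · obtain ⟨p', hp', he⟩ := hred p h hp
      rw [← he, ← hub]
      exact hmax hp'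
    · linarith [hA p (not_le.1 h).le]
  have hev : ∀ p : ℂ, p.re < 0 → u p = u p0 → ∀ᶠ y in 𝓝 p, u y = u p0 := fun p hp he => by
    have := locmax (hh p hp) (by
      filter_upwards [hD.mem_nhds hp] with y hy
      rw [he]; exact hglob y hy)
    rwa [he] at this
  have hsub : {p : ℂ | p.re < 0} ⊆ {p | ∀ᶠ y in 𝓝 p, u y = u p0} := by
    refine IsPreconnected.subset_left_of_subset_union (v := {p : ℂ | p.re < 0} ∩ u ⁻¹' {u p0}ᶜ)
      isOpen_setOf_eventually_nhds (hh.continuousOn.isOpen_inter_preimage hD isOpen_compl_singleton)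
      ?_ ?_ ⟨p0, hp0D, hev p0 hp0D rfl⟩ (convex_halfSpace_re_lt 0).isPreconnected
    · exact Set.disjoint_left.2 fun p hp hp' => hp'.2 hp.self_of_nhds
    · intro p hp
      by_cases h : u p = u p0
      · exact Or.inl (hev p hp h)
      · exact Or.inr ⟨hp, h⟩
  have h1 : u (A : ℂ) = u p0 := (hsub (show (A : ℂ).re < 0 from hA0)).self_of_nhds
  linarith [hA (A : ℂ) le_rfl]

lemma trivial_sol {lam : ℝ} (hl : 0 < lam) {r : ℂ → ℝ} (h : Solves lam {p : ℂ | p.re < 0} r) :
    ∀ p : ℂ, p.re < 0 → r p = 0 := by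
  obtain ⟨hper, ⟨C, hC⟩, hh, hz⟩ := h
  have hper' : Function.Periodic (fun p : ℂ => Real.exp (lam * p.re) * r p)
      (2 * Real.pi * Complex.I) := fun p => by simp [hper p]
  have hz' : ∀ q : ℂ, q.re = 0 → Tendsto (fun p : ℂ => Real.exp (lam * p.re) * r p)
      (𝓝[{p : ℂ | p.re < 0}] q) (𝓝 0) := fun q hq => by
    have h1 : Continuous fun p : ℂ => Real.exp (lam * p.re) := by fun_prop
    have := ((h1.tendsto q).mono_left nhdsWithin_le_nhds).mul
      (hz q (by rw [Complex.frontier_setOf_re_lt]; exact hq) (regular_half q hq))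
    rwa [mul_zero] at this
  intro p hp
  have h1 := nonpos (C := C) hl hper' (fun p hp => by
    rw [mul_comm]
    exact mul_le_mul_of_nonneg_right (le_of_abs_le (hC p hp)) (Real.exp_pos _).le) hh hz' p hp
  have h2 := nonpos (C := C) (u := -fun p : ℂ => Real.exp (lam * p.re) * r p) hl
    (fun p => by simp only [Pi.neg_apply, hper' p])
    (fun p hp => by
      have := (abs_le.1 (hC p hp)).1
      have h3 := Real.exp_pos (lam * p.re)
      simp only [Pi.neg_apply]
      nlinarith) hh.neg (fun q hq => by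
        have := (hz' q hq).neg
        rw [neg_zero] at this
        exact this) p hp
  simp only [Pi.neg_apply] at h2
  have h3 : Real.exp (lam * p.re) * r p = 0 := by linarith
  exact (mul_eq_zero.1 h3).resolve_left (Real.exp_pos _).ne'

theorem result (ρ : ℝ) (hρ : 0 < ρ) : ∃ v : ℂ → EReal, InU ρ v ∧ harmSet v ≠ univ ∧ Minimal ρ v ∧
    lamOf (Complex.exp ⁻¹' harmSet v) = ⊤ := by
  refine ⟨fun z => (vr ρ z : EReal), ⟨vr_subh hρ, ?_, 1, one_pos, fun z => ?_⟩, ?_, ?_, ?_⟩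
  · simp [vr_zero hρ]
  · refine EReal.coe_le_coe_iff.2 (max_le (by linarith) ?_)
    positivity
  · rw [harmSet_vr hρ]
    intro h
    have : (1 : ℂ) ∈ ball (0 : ℂ) 1 := h ▸ mem_univ _
    simp at this
  · rintro ε hε ⟨w, ⟨hw, hw0, -⟩, hle⟩
    have := hw.2.2 0 1 one_pos (subset_univ _) (fun _ => -ε) continuousOn_const
      (harmonicOnNhd_const _) (fun z hz => by
        have h1 : ‖z‖ = 1 := mem_sphere_zero_iff_norm.1 hz
        refine (hle z).trans (le_of_eq ?_)
        simp only []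
        rw [vr_zero hρ h1.le, h1, Real.one_rpow, ← EReal.coe_sub]
        simp) 0 (mem_ball_self one_pos)
    rw [hw0] at this
    have h2 : (0 : ℝ) ≤ -ε := by exact_mod_cast this
    linarith
  · have hD : Complex.exp ⁻¹' harmSet (fun z => (vr ρ z : EReal)) = {p : ℂ | p.re < 0} := by
      rw [harmSet_vr hρ]
      ext p
      simp [Complex.norm_exp]
    rw [hD, lamOf]
    refine iInf₂_eq_top.2 ?_
    rintro lam ⟨hl, r, hr, p, hp, hne⟩
    exact absurd (trivial_sol hl hr p hp) hne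

end Pool.Agent.Results.MP_784777_an.Counter
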